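import Pool.Agent.Helper5.FS.Stmts2
import Pool.Agent.Helper73.FS.PAR

set_option autoImplicit false

open Finset

namespace Pool.Agent.Helper5.FS

theorem st_PA2 (h1 : ST_MG1) (h2 : ST_GL2) : ST_PA2 := by
  classical
  intro n m q s k E b hb hq hm hk hn hqk hE
  rw [hb m, hb (m - 1), par_card, par_card]
  refine (h2 n m q s k E hq hm hk hn hqk hE _ ?_).trans (card_le_card ?_)
  · intro P hP
    exact (mem_filter.mp hP).2
  · intro R hR
    rw [mem_filter] at hR ⊢
    obtain ⟨-, hI, P, hP, A, hA, B, hB, hAB, rfl⟩ := hR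
    obtain ⟨-, hPt, -, hPm⟩ := mem_filter.mp hP
    obtain ⟨k1, k2⟩ := h1 n P A B hPt hA hB hAB
    refine ⟨mem_univ _, k1, hI, ?_⟩
    omega

end Pool.Agent.Helper5.FS
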